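import Pool.Agent.N637.SLX.Stm2
import Pool.Agent.N966.K21.Rk
import Pool.Agent.R413.SJ.ShaQ

/-!
# SLX-SELQ: the 2-descent over `ℚ` with the rank

From the number field version `Pool.Agent.N966.K21.t_RK` for `K = ℚ`.
-/

set_option autoImplicit false
set_option linter.all false

open scoped Classical

namespace Pool.Agent.N747.SLX

open NumberField IsDedekindDomain
open Pool.Agent.TH841.SH (SelG LocC IsR)
open Pool.Agent.N856.QB (Lo Se)

/-! ### Square classes of rational numbers -/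

/-- every nonzero rational number is a squarefree integer up to squares -/
theorem sqf_rep {q : ℚ} (hq : q ≠ 0) : ∃ d : ℤ, Squarefree d ∧ IsSquare (q * d) := by
  have hn : q.num ≠ 0 := Rat.num_ne_zero.2 hq
  have hd : (q.den : ℤ) ≠ 0 := by exact_mod_cast q.den_ne_zero
  obtain ⟨a, b, hab, ha⟩ := Nat.sq_mul_squarefree (q.num * q.den).natAbs
  have hb0 : (b : ℚ) ≠ 0 := by
    intro h0
    have : b = 0 := by exact_mod_cast h0
    rw [this] at hab
    have h1 : (q.num * q.den).natAbs = 0 := by rw [← hab]; ring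
    exact mul_ne_zero hn hd (Int.natAbs_eq_zero.1 h1)
  have key : ∃ d : ℤ, Squarefree d ∧ (b : ℤ) ^ 2 * d = q.num * q.den := by
    rcases Int.natAbs_eq (q.num * q.den) with h | h
    · refine ⟨a, Int.squarefree_natCast.2 ha, ?_⟩
      rw [h, ← hab]
      push_cast
      ring
    · refine ⟨-(a : ℤ), fun x hx => Int.squarefree_natCast.2 ha x ((dvd_neg).1 hx), ?_⟩
      rw [h, ← hab]
      push_cast
      ring
  obtain ⟨d, hd1, hd2⟩ := key
  refine ⟨d, hd1, ⟨q.num / b, ?_⟩⟩
  have h2 : (b : ℚ) ^ 2 * d = q.num * q.den := by exact_mod_cast hd2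
  have h3 : q * q.den = q.num := Rat.mul_den_eq_num q
  have h4 : (q * d) * (b : ℚ) ^ 2 = (q.num : ℚ) * q.num := by
    calc (q * d) * (b : ℚ) ^ 2 = q * ((b : ℚ) ^ 2 * d) := by ring
      _ = q * (q.num * q.den) := by rw [h2]
      _ = (q * q.den) * q.num := by ring
      _ = (q.num : ℚ) * q.num := by rw [h3]
  field_simp
  rw [h4]
  ring

/-- squarefree integers in the same square class are equal -/
theorem eq_of_sq {d m : ℤ} (hd : Squarefree d) (hm : Squarefree m)
    (h : IsSquare ((d : ℚ) * m)) : d = m := by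
  have h1 : IsSquare (((d * m : ℤ)) : ℚ) := by push_cast; exact h
  rw [Rat.isSquare_intCast_iff] at h1
  obtain ⟨r, hr⟩ := h1
  have h2 : d ∣ r := (hd.dvd_pow_iff_dvd two_ne_zero).1 ⟨m, by rw [pow_two, hr]⟩
  obtain ⟨k, rfl⟩ := h2
  have h3 : m = d * (k * k) := mul_left_cancel₀ hd.ne_zero (by rw [hr]; ring)
  have h4 : IsUnit k := hm k ⟨d, by rw [h3]; ring⟩
  rcases Int.isUnit_iff.1 h4 with h | h <;> rw [h3, h] <;> ring

/-! ### The local conditions -/

theorem lo_equiv {L L' : Type} [Field L] [Field L'] (e : L ≃+* L') (a b c : ℤ) {u v : L}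
    (h : Lo L a b c u v) : Lo L' a b c (e u) (e v) := by
  obtain ⟨x, y, h0, h1, h2, h3⟩ := h
  refine ⟨e x, e y, ?_, ?_, ?_, ?_⟩
  · exact (map_ne_zero e).2 h0
  · have := congrArg e h1
    simpa [map_mul, map_sub, map_pow, map_intCast] using this
  · have := h2.map e
    simpa [map_mul, map_sub, map_intCast] using this
  · have := h3.map e
    simpa [map_mul, map_sub, map_intCast] using this

theorem sq_cl {L : Type} [Field L] {x u u' : L} (hu' : u ≠ 0) (h : IsSquare (u * u'))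
    (hx : IsSquare (x * u)) : IsSquare (x * u') := by
  have h1 := hx.mul h
  have e : x * u * (u * u') = (u * u) * (x * u') := by ring
  rw [e] at h1
  obtain ⟨r, hr⟩ := h1
  refine ⟨r / u, ?_⟩
  field_simp
  rw [pow_two, pow_two, ← hr]
  ring

/-- the local condition depends on the square classes only -/
theorem lo_cl {L : Type} [Field L] (a b c : ℤ) {u v u' v' : L} (hu : u ≠ 0) (hv : v ≠ 0)
    (h1 : IsSquare (u * u')) (h2 : IsSquare (v * v')) (h : Lo L a b c u v) : Lo L a b c u' v' := by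
  obtain ⟨x, y, h0, h3, h4, h5⟩ := h
  exact ⟨x, y, h0, h3, sq_cl hu h1 h4, sq_cl hv h2 h5⟩

theorem locC_iff {L : Type} [Field L] (a b c d1 d2 : ℤ) :
    LocC L a b c d1 d2 ↔ Lo L a b c (d1 : L) (d2 : L) := Iff.rfl

/-- the primes are prime -/
local instance factP (q : Nat.Primes) : Fact (Nat.Prime (q : ℕ)) := ⟨q.2⟩

/-- all the local conditions for a pair of integers -/
theorem all_iff (a b c d1 d2 : ℤ) :
    ((∀ v : HeightOneSpectrum (𝓞 ℚ), Lo (v.adicCompletion ℚ) a b c
      (algebraMap ℚ (v.adicCompletion ℚ) d1) (algebraMap ℚ (v.adicCompletion ℚ) d2)) ∧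
    ∀ v : InfinitePlace ℚ, Lo v.Completion a b c (algebraMap ℚ v.Completion d1)
      (algebraMap ℚ v.Completion d2)) ↔
    (LocC ℝ a b c d1 d2 ∧ ∀ (p : ℕ) [Fact p.Prime], LocC ℚ_[p] a b c d1 d2) := by
  constructor
  · rintro ⟨h1, h2⟩
    refine ⟨?_, fun p hp => ?_⟩
    · have h := lo_equiv (InfinitePlace.Completion.ringEquivRealOfIsReal
        (Pool.Agent.R413.SJ.ShaQ.real_place Rat.infinitePlace)) a b c (h2 Rat.infinitePlace)
      rw [locC_iff]
      simpa using h
    · let v : HeightOneSpectrum (𝓞 ℚ) :=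
        (Rat.HeightOneSpectrum.primesEquiv (R := 𝓞 ℚ)).symm ⟨p, hp.out⟩
      have h4 := lo_equiv
        (Rat.HeightOneSpectrum.adicCompletion.padicEquiv (R := 𝓞 ℚ) v).toRingEquiv a b c (h1 v)
      rw [map_intCast, map_intCast, map_intCast, map_intCast] at h4
      have h5 : ∀ q : Nat.Primes, Rat.HeightOneSpectrum.primesEquiv (R := 𝓞 ℚ) v = q →
          LocC ℚ_[q] a b c d1 d2 := by
        rintro _ rfl
        exact h4
      exact h5 ⟨p, hp.out⟩ (Equiv.apply_symm_apply _ _)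
  · rintro ⟨h1, h2⟩
    refine ⟨fun v => ?_, fun v => ?_⟩
    · have h4 := lo_equiv
        (Rat.HeightOneSpectrum.adicCompletion.padicEquiv (R := 𝓞 ℚ) v).symm.toRingEquiv a b c
        (h2 (Rat.HeightOneSpectrum.primesEquiv (R := 𝓞 ℚ) v))
      rw [map_intCast, map_intCast] at h4
      rw [map_intCast, map_intCast]
      exact h4
    · have h4 := lo_equiv (InfinitePlace.Completion.ringEquivRealOfIsReal
        (Pool.Agent.R413.SJ.ShaQ.real_place v)).symm a b c h1
      rw [map_intCast, map_intCast] at h4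
      rw [map_intCast, map_intCast]
      exact h4

theorem mem_iff (a b c d1 d2 : ℤ) (h1 : Squarefree d1) (h2 : Squarefree d2) :
    ((d1 : ℚ), (d2 : ℚ)) ∈ Se ℚ a b c ↔ (d1, d2) ∈ SelG a b c := by
  constructor
  · rintro ⟨-, -, h3, h4⟩
    exact ⟨h1, h2, (all_iff a b c d1 d2).1 ⟨h3, h4⟩⟩
  · rintro ⟨-, -, h3⟩
    exact ⟨Int.cast_ne_zero.2 h1.ne_zero, Int.cast_ne_zero.2 h2.ne_zero,
      (all_iff a b c d1 d2).2 h3⟩

/-! ### The instances of decidable equality -/

theorem fgk (W : WeierstrassCurve ℚ) : ∀ i j : DecidableEq ℚ,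
    @AddGroup.FG W.toAffine.Point
      (@WeierstrassCurve.Affine.Point.instAddCommGroup ℚ _ W.toAffine i).toAddGroup →
    @AddGroup.FG W.toAffine.Point
      (@WeierstrassCurve.Affine.Point.instAddCommGroup ℚ _ W.toAffine j).toAddGroup := by
  intro i j h
  rwa [Subsingleton.elim j i]

theorem frk (W : WeierstrassCurve ℚ) : ∀ i j : DecidableEq ℚ,
    @Module.finrank ℤ W.toAffine.Point _
      (@WeierstrassCurve.Affine.Point.instAddCommGroup ℚ _ W.toAffine i).toAddCommMonoid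
      (@AddCommGroup.toIntModule _
        (@WeierstrassCurve.Affine.Point.instAddCommGroup ℚ _ W.toAffine i)) =
    @Module.finrank ℤ W.toAffine.Point _
      (@WeierstrassCurve.Affine.Point.instAddCommGroup ℚ _ W.toAffine j).toAddCommMonoid
      (@AddCommGroup.toIntModule _
        (@WeierstrassCurve.Affine.Point.instAddCommGroup ℚ _ W.toAffine j)) := by
  intro i j
  rw [Subsingleton.elim j i]

end Pool.Agent.N747.SLX

namespace Pool.Agent.N637.SLX

open NumberField IsDedekindDomain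
open Pool.Agent.TH841.SH (SelG LocC IsR)
open Pool.Agent.N856.QB (Lo Se)
open Pool.Agent.N747.SLX

theorem t_SELQ : S_SELQ := by
  intro W a b c hab hac hbc hW hfin
  set S : Finset (ℚ × ℚ) := hfin.toFinset.image (fun z => ((z.1 : ℚ), (z.2 : ℚ))) with hS
  have hinj : Function.Injective (fun z : ℤ × ℤ => ((z.1 : ℚ), (z.2 : ℚ))) := by
    rintro ⟨x, y⟩ ⟨x', y'⟩ h
    have h1' : x = x' := Int.cast_injective (α := ℚ) (congrArg Prod.fst h)
    have h2' : y = y' := Int.cast_injective (α := ℚ) (congrArg Prod.snd h)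
    rw [h1', h2']
  have hmem : ∀ z : ℚ × ℚ, z ∈ S ↔ ∃ d : ℤ × ℤ, d ∈ SelG a b c ∧ ((d.1 : ℚ), (d.2 : ℚ)) = z := by
    intro z
    rw [hS, Finset.mem_image]
    constructor
    · rintro ⟨d, hd, he⟩
      exact ⟨d, hfin.mem_toFinset.1 hd, he⟩
    · rintro ⟨d, hd, he⟩
      exact ⟨d, hfin.mem_toFinset.2 hd, he⟩
  obtain ⟨r1, r2, r3⟩ := Pool.Agent.N966.K21.t_RK ℚ W a b c hab hac hbc (by simpa using hW) S
    (by
      intro z hz
      obtain ⟨⟨d1, d2⟩, hd, rfl⟩ := (hmem z).1 hz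
      exact (mem_iff a b c d1 d2 hd.1 hd.2.1).2 hd)
    (by
      intro z hz z' hz' h1 h2
      obtain ⟨⟨d1, d2⟩, hd, rfl⟩ := (hmem z).1 hz
      obtain ⟨⟨e1, e2⟩, he, rfl⟩ := (hmem z').1 hz'
      have q1 : d1 = e1 := Pool.Agent.N747.SLX.eq_of_sq hd.1 he.1 h1
      have q2 : d2 = e2 := Pool.Agent.N747.SLX.eq_of_sq hd.2.1 he.2.1 h2
      rw [q1, q2])
    (by
      rintro ⟨q1, q2⟩ ⟨hq1, hq2, h3, h4⟩
      obtain ⟨d1, hd1, s1⟩ := sqf_rep hq1
      obtain ⟨d2, hd2, s2⟩ := sqf_rep hq2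
      refine ⟨((d1 : ℚ), (d2 : ℚ)), ?_, s1, s2⟩
      rw [hmem]
      refine ⟨(d1, d2), (mem_iff a b c d1 d2 hd1 hd2).1 ?_, rfl⟩
      refine ⟨Int.cast_ne_zero.2 hd1.ne_zero, Int.cast_ne_zero.2 hd2.ne_zero, fun v => ?_,
        fun v => ?_⟩
      · refine lo_cl a b c ((map_ne_zero _).2 hq1) ((map_ne_zero _).2 hq2) ?_ ?_ (h3 v)
        · have := s1.map (algebraMap ℚ (v.adicCompletion ℚ))
          rwa [map_mul] at this
        · have := s2.map (algebraMap ℚ (v.adicCompletion ℚ))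
          rwa [map_mul] at this
      · refine lo_cl a b c ((map_ne_zero _).2 hq1) ((map_ne_zero _).2 hq2) ?_ ?_ (h4 v)
        · have := s1.map (algebraMap ℚ v.Completion)
          rwa [map_mul] at this
        · have := s2.map (algebraMap ℚ v.Completion)
          rwa [map_mul] at this)
  let f : {x : Pool.Agent.TH841.NF.D.Sha W // 2 • x = 0} ≃
      {x : Pool.Agent.TH841.SH.D.Sha W // 2 • x = 0} :=
    (Pool.Agent.R413.SJ.ShaQ.iso W).toEquiv.subtypeEquiv (fun x => by
      constructor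
      · intro h
        show 2 • (Pool.Agent.R413.SJ.ShaQ.iso W) x = 0
        rw [← map_nsmul, h, map_zero]
      · intro h
        have h' : 2 • (Pool.Agent.R413.SJ.ShaQ.iso W) x = 0 := h
        rw [← map_nsmul] at h'
        exact (map_eq_zero_iff (Pool.Agent.R413.SJ.ShaQ.iso W)
          (Pool.Agent.R413.SJ.ShaQ.iso W).injective).1 h')
  have r1' : AddGroup.FG W.toAffine.Point := fgk W _ _ r1
  have r3' : S.card = 2 ^ Module.finrank ℤ W.toAffine.Point *
      (4 * Nat.card {x : Pool.Agent.TH841.NF.D.Sha W // 2 • x = 0}) := by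
    refine r3.trans ?_
    rw [frk W _ _]
  refine ⟨r1', ?_, ?_⟩
  · haveI := r2
    exact Finite.of_equiv _ f
  · rw [← Nat.card_congr f, ← r3', hS, Finset.card_image_of_injective _ hinj]
    rw [← Set.ncard_eq_toFinset_card _ hfin]
    exact Nat.card_coe_set_eq _

end Pool.Agent.N637.SLX
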